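import Pool.Agent.Work.MP_f2af60_mp.HLine5

/-!
# MP_f2af60_mp: lines of potentials in the dimensions `n ≡ 3 mod 4`

For all real-valued `V, W ∈ L^∞_comp(ℝⁿ)`, `n = 7, 11, 15, …`, `W ≠ 0`, the potential `V + g W` has
infinitely many resonances for all but finitely many real `g`. No smoothness is assumed.

Resonances are the poles of the meromorphic continuation of `R_V(λ) = (-Δ + V - λ²)⁻¹` as an
operator `L²_comp → L²_loc`, that is, the poles of the meromorphic continuations of the functions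
`λ ↦ ∫ (R_V(λ) f) g` with `f, g ∈ L²_comp`.
-/

namespace Pool.Agent.Results.MP_f2af60_mp.LinesOfPotentials

open MeasureTheory
open scoped SchwartzMap Laplacian

/-- The Euclidean space `ℝⁿ`. -/
abbrev E (n : ℕ) := EuclideanSpace ℝ (Fin n)

/-- The function `-Δ φ + V φ + k² φ` for a Schwartz function `φ`. -/
noncomputable def helmholtz {n : ℕ} (V : E n → ℝ) (k : ℝ) (φ : 𝓢(E n, ℂ)) (x : E n) : ℂ :=
  -(Δ φ) x + ((V x : ℂ) + (k : ℂ) ^ 2) * φ x

/-- `u = R_V(i k) f`, where `R_V(λ) = (-Δ + V - λ²)⁻¹`: the function `u ∈ L²(ℝⁿ)` solves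
`-Δ u + V u + k² u = f` in the sense of tempered distributions. -/
def IsResolvent {n : ℕ} (V : E n → ℝ) (k : ℝ) (f u : E n → ℂ) : Prop :=
  MemLp u 2 volume ∧ ∀ φ : 𝓢(E n, ℂ), ∫ x, u x * helmholtz V k φ x = ∫ x, f x * φ x

/-- `f ∈ L²_comp(ℝⁿ)`: `f` is square integrable and vanishes almost everywhere outside a ball. -/
def L2comp {n : ℕ} (f : E n → ℂ) : Prop :=
  MemLp f 2 volume ∧ ∃ R : ℝ, ∀ᵐ x, R < ‖x‖ → f x = 0

/-- `F` is the meromorphic continuation of `λ ↦ ∫ (R_V(λ) f) g`: it is meromorphic on `ℂ`, and for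
all large `k` the equation defining `R_V(i k) f` has exactly one solution `u ∈ L²(ℝⁿ)` (up to
almost everywhere equality), and `F(i k) = ∫ u g`. -/
def IsContinuation {n : ℕ} (V : E n → ℝ) (f g : E n → ℂ) (F : ℂ → ℂ) : Prop :=
  (∀ z, MeromorphicAt F z) ∧ ∃ k₀ : ℝ, ∀ k > k₀, ∃ u : E n → ℂ, IsResolvent V k f u ∧
    (∀ v : E n → ℂ, IsResolvent V k f v → v =ᵐ[volume] u) ∧
    F (Complex.I * (k : ℂ)) = ∫ x, u x * g x

/-- `z` is a resonance of `V`: a pole of the meromorphic continuation of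
`R_V : L²_comp(ℝⁿ) → L²_loc(ℝⁿ)`. -/
def IsResonance {n : ℕ} (V : E n → ℝ) (z : ℂ) : Prop :=
  ∃ f g : E n → ℂ, L2comp f ∧ L2comp g ∧ ∃ F : ℂ → ℂ, IsContinuation V f g F ∧
    meromorphicOrderAt F z < 0

open Pool.Agent.Work.MP_f2af60_mp in
theorem isResonance_of_isPole {q : ℕ} (V : E (2 * q + 3) → ℝ) (z : ℂ) (h : PQ.IsPole V z) :
    IsResonance V z := by
  obtain ⟨f, g, ⟨R, hf⟩, ⟨R', hg⟩, F, ⟨hF, k₀, hk⟩, ho⟩ := h
  refine ⟨f, g, ⟨Lp.memLp f, R, hf⟩, ⟨Lp.memLp g, R', hg⟩, F, ⟨hF, k₀, fun k hk' => ?_⟩, ho⟩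
  obtain ⟨u, hu, hFu⟩ := hk k hk'
  refine ⟨u, ⟨Lp.memLp u, (hu u).2 rfl⟩, fun v hv => ?_, hFu⟩
  obtain ⟨hv1, hv2⟩ := hv
  have h1 : PQ.IsResolvent V k f (hv1.toLp v) := by
    intro φ
    rw [← hv2 φ]
    refine integral_congr_ae ?_
    filter_upwards [hv1.coeFn_toLp] with x hx
    rw [hx, helmholtz]
  have h2 := (hu _).1 h1
  rw [← h2]
  exact hv1.coeFn_toLp.symm

/-- Let `n ≡ 3 mod 4`, `n ≥ 7`, and let `V, W ∈ L^∞(ℝⁿ)` be real-valued with compact (essential)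
support, `W` not almost everywhere zero. Then `V + g W` has infinitely many resonances for all
`g ∈ ℝ` with finitely many exceptions. -/
theorem result (n : ℕ) (hn : n % 4 = 3) (hn7 : 7 ≤ n) (V W : E n → ℝ) (hV : MemLp V ⊤ volume)
    (hW : MemLp W ⊤ volume) (R : ℝ) (hsuppV : ∀ᵐ x, R < ‖x‖ → V x = 0)
    (hsuppW : ∀ᵐ x, R < ‖x‖ → W x = 0) (hne : ¬ W =ᵐ[volume] 0) :
    {g : ℝ | ¬ {z : ℂ | IsResonance (fun x => V x + g * W x) z}.Infinite}.Finite := by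
  obtain ⟨q, hq1, rfl⟩ : ∃ q : ℕ, 1 ≤ q ∧ n = 2 * q + 3 := ⟨(n - 3) / 2, by omega, by omega⟩
  refine (Pool.Agent.Work.MP_f2af60_mp.line_finite_poles hq1 V W hV hW R hsuppV hsuppW
    hne).subset fun g hg => ?_
  have hg' : {z : ℂ | IsResonance (fun x => V x + g * W x) z}.Finite := Set.not_infinite.1 hg
  exact hg'.subset fun z hz => isResonance_of_isPole _ z hz

end Pool.Agent.Results.MP_f2af60_mp.LinesOfPotentials
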