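import Pool.Agent.Work.MP_f2af60_mp.HLine5
import Pool.Agent.Work.MP_f2af60_mp.HSobolev

/-!
# MP_f2af60_mp: the roughness of potentials with finitely many resonances, `n ≡ 3 mod 4`

If a nonzero real-valued `V ∈ L^∞_comp(ℝⁿ)`, `n = 7, 11, 15, …`, has only finitely many resonances,
then `∫_{|ξ| ≤ t} |ξ|^(n-4) |V̂(ξ)|² dξ = c N log t + O(1)` with an integer `N ≥ 1`, where `c > 0`
depends only on the dimension, and `V` is in `H^s` exactly for `s < (n-4)/2`.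

Resonances are the poles of the meromorphic continuation of `R_V(λ) = (-Δ + V - λ²)⁻¹` as an
operator `L²_comp → L²_loc`, that is, the poles of the meromorphic continuations of the functions
`λ ↦ ∫ (R_V(λ) f) g` with `f, g ∈ L²_comp`.
-/

namespace Pool.Agent.Results.MP_f2af60_mp.RoughnessLaw

open MeasureTheory
open scoped SchwartzMap Laplacian

/-- The Euclidean space `ℝⁿ`. -/
abbrev E (n : ℕ) := EuclideanSpace ℝ (Fin n)

/-- The function `-Δ φ + V φ + k² φ` for a Schwartz function `φ`. -/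
noncomputable def helmholtz {n : ℕ} (V : E n → ℝ) (k : ℝ) (φ : 𝓢(E n, ℂ)) (x : E n) : ℂ :=
  -(Δ φ) x + ((V x : ℂ) + (k : ℂ) ^ 2) * φ x

/-- `u = R_V(i k) f`, where `R_V(λ) = (-Δ + V - λ²)⁻¹`: the function `u ∈ L²(ℝⁿ)` solves
`-Δ u + V u + k² u = f` in the sense of tempered distributions. -/
def IsResolvent {n : ℕ} (V : E n → ℝ) (k : ℝ) (f u : E n → ℂ) : Prop :=
  MemLp u 2 volume ∧ ∀ φ : 𝓢(E n, ℂ), ∫ x, u x * helmholtz V k φ x = ∫ x, f x * φ x

/-- `f ∈ L²_comp(ℝⁿ)`: `f` is square integrable and vanishes almost everywhere outside a ball. -/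
def L2comp {n : ℕ} (f : E n → ℂ) : Prop :=
  MemLp f 2 volume ∧ ∃ R : ℝ, ∀ᵐ x, R < ‖x‖ → f x = 0

/-- `F` is the meromorphic continuation of `λ ↦ ∫ (R_V(λ) f) g`: it is meromorphic on `ℂ`, and for
all large `k` the equation defining `R_V(i k) f` has exactly one solution `u ∈ L²(ℝⁿ)` (up to
almost everywhere equality), and `F(i k) = ∫ u g`. -/
def IsContinuation {n : ℕ} (V : E n → ℝ) (f g : E n → ℂ) (F : ℂ → ℂ) : Prop :=
  (∀ z, MeromorphicAt F z) ∧ ∃ k₀ : ℝ, ∀ k > k₀, ∃ u : E n → ℂ, IsResolvent V k f u ∧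
    (∀ v : E n → ℂ, IsResolvent V k f v → v =ᵐ[volume] u) ∧
    F (Complex.I * (k : ℂ)) = ∫ x, u x * g x

/-- `z` is a resonance of `V`: a pole of the meromorphic continuation of
`R_V : L²_comp(ℝⁿ) → L²_loc(ℝⁿ)`. -/
def IsResonance {n : ℕ} (V : E n → ℝ) (z : ℂ) : Prop :=
  ∃ f g : E n → ℂ, L2comp f ∧ L2comp g ∧ ∃ F : ℂ → ℂ, IsContinuation V f g F ∧
    meromorphicOrderAt F z < 0

open Pool.Agent.Work.MP_f2af60_mp in
theorem isResonance_of_isPole {q : ℕ} (V : E (2 * q + 3) → ℝ) (z : ℂ) (h : PQ.IsPole V z) :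
    IsResonance V z := by
  obtain ⟨f, g, ⟨R, hf⟩, ⟨R', hg⟩, F, ⟨hF, k₀, hk⟩, ho⟩ := h
  refine ⟨f, g, ⟨Lp.memLp f, R, hf⟩, ⟨Lp.memLp g, R', hg⟩, F, ⟨hF, k₀, fun k hk' => ?_⟩, ho⟩
  obtain ⟨u, hu, hFu⟩ := hk k hk'
  refine ⟨u, ⟨Lp.memLp u, (hu u).2 rfl⟩, fun v hv => ?_, hFu⟩
  obtain ⟨hv1, hv2⟩ := hv
  have h1 : PQ.IsResolvent V k f (hv1.toLp v) := by
    intro φ
    rw [← hv2 φ]
    refine integral_congr_ae ?_
    filter_upwards [hv1.coeFn_toLp] with x hx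
    rw [hx, helmholtz]
  have h2 := (hu _).1 h1
  rw [← h2]
  exact hv1.coeFn_toLp.symm

/-- `V ∈ H^s(ℝⁿ)`: `(1 + |ξ|²)^s |V̂(ξ)|²` is integrable. -/
def Sobolev {n : ℕ} (V : E n → ℝ) (s : ℝ) : Prop :=
  Integrable (fun ξ : E n => (1 + ‖ξ‖ ^ 2) ^ s *
    ‖FourierTransform.fourier (fun x => (V x : ℂ)) ξ‖ ^ 2) volume

/-- Let `n ≡ 3 mod 4`, `n ≥ 7`. There is `c > 0` such that every real-valued `V ∈ L^∞(ℝⁿ)` with
compact (essential) support, not almost everywhere zero and with only finitely many resonances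
satisfies `∫_{|ξ| ≤ t} |ξ|^(n-4) |V̂(ξ)|² dξ = c N log t + O(1)` for an integer `N ≥ 1`, and it
is in `H^s` exactly for `s < (n-4)/2`. -/
theorem result (n : ℕ) (hn : n % 4 = 3) (hn7 : 7 ≤ n) :
    ∃ c : ℝ, 0 < c ∧ ∀ (V : E n → ℝ), MemLp V ⊤ volume → ∀ (R : ℝ),
      (∀ᵐ x, R < ‖x‖ → V x = 0) → ¬ V =ᵐ[volume] 0 → {z : ℂ | IsResonance V z}.Finite →
      (∃ N : ℕ, 1 ≤ N ∧ ∃ C : ℝ, ∀ t : ℝ, 1 ≤ t →
        |(∫ ξ in Metric.closedBall (0 : E n) t, ‖ξ‖ ^ (n - 4) *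
          ‖FourierTransform.fourier (fun x => (V x : ℂ)) ξ‖ ^ 2) - c * N * Real.log t| ≤ C) ∧
      ∀ s : ℝ, Sobolev V s ↔ s < ((n : ℝ) - 4) / 2 := by
  obtain ⟨q, hq1, hqe, rfl⟩ : ∃ q : ℕ, 1 ≤ q ∧ Even q ∧ n = 2 * q + 3 :=
    ⟨(n - 3) / 2, by omega, Nat.even_iff.2 (by omega), by omega⟩
  obtain ⟨c, hc, h⟩ := Pool.Agent.Work.MP_f2af60_mp.law_final hq1 hqe
  refine ⟨c, hc, fun V hV R hsupp hne hfin => ?_⟩
  have hfin' : {z : ℂ | Pool.Agent.Work.MP_f2af60_mp.PQ.IsPole V z}.Finite :=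
    hfin.subset fun z hz => isResonance_of_isPole V z hz
  have e : 2 * q + 3 - 4 = 2 * q - 1 := by omega
  rw [e]
  obtain ⟨N, hN, C, hC⟩ := h V hV R hsupp hne hfin'
  refine ⟨⟨N, hN, C, hC⟩, fun s => ?_⟩
  have hint : Integrable (fun x => (V x : ℂ)) volume := by
    have h1 : MemLp (fun x => (V x : ℂ)) ⊤ volume := hV.ofReal
    have : IsFiniteMeasure (volume.restrict (Metric.closedBall (0 : E (2 * q + 3)) R)) :=
      ⟨by simpa using measure_closedBall_lt_top⟩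
    have h2 : IntegrableOn (fun x => (V x : ℂ)) (Metric.closedBall (0 : E (2 * q + 3)) R) :=
      (h1.restrict _).integrable le_top
    refine (h2.integrable_indicator measurableSet_closedBall).congr ?_
    filter_upwards [hsupp] with x hx
    by_cases hxR : x ∈ Metric.closedBall (0 : E (2 * q + 3)) R
    · rw [Set.indicator_of_mem hxR]
    · rw [Set.indicator_of_notMem hxR]
      rw [mem_closedBall_zero_iff, not_le] at hxR
      rw [hx hxR, Complex.ofReal_zero]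
  have hcont : Continuous (FourierTransform.fourier (fun x => (V x : ℂ))) :=
    VectorFourier.fourierIntegral_continuous Real.continuous_fourierChar continuous_inner hint
  have h3 := Pool.Agent.Work.MP_f2af60_mp.Sob.sobolev_iff
    (w := fun ξ => ‖FourierTransform.fourier (fun x => (V x : ℂ)) ξ‖ ^ 2) (hcont.norm.pow 2)
    (fun ξ => by positivity) (m := 2 * q - 1) (by omega) (a := c * N) (C := C)
    (mul_pos hc (by exact_mod_cast hN)) hC s
  have e2 : ((2 * q - 1 : ℕ) : ℝ) / 2 = (((2 * q + 3 : ℕ) : ℝ) - 4) / 2 := by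
    have : ((2 * q - 1 : ℕ) : ℝ) = 2 * (q : ℝ) - 1 := by
      rw [Nat.cast_sub (by omega)]
      push_cast
      ring
    rw [this]
    push_cast
    ring
  rw [e2] at h3
  exact h3

end Pool.Agent.Results.MP_f2af60_mp.RoughnessLaw
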